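import Pool.Agent.TH133.TT.Main

/-!
# Motivic t-structures over arbitrary fields: conservativity and uniqueness

The theorem is about a tensor triangulated category `T` in which all objects have duals and whose
unit object has no idempotent endomorphisms besides `0` and `1`, and a tensor triangulated functor
`R : T ⥤ D` to a tensor triangulated category with a non-degenerate, tensor compatible t-structure
`s`. For every field `k` (of any characteristic) and every prime `ℓ` different from the
characteristic these hypotheses hold for `T = DM_c(k)`, with rational coefficients (duals exist by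
de Jong's alterations, and `End(1) = ℚ`), for `D = D^b_c(Spec k, ℚ_ℓ)` with its standard t-structure,
and for `R` the `ℓ`-adic realisation.

Theorem. Let `t` be a t-structure on `T` for which `R` is t-exact. Then `t` is non-degenerate and
compatible with the tensor product if and only if `R` is conservative. In this case
`T^{≤n} = R⁻¹(D^{≤n})` and `T^{≥n} = R⁻¹(D^{≥n})`, and so there is at most one such t-structure `t`.

That the t-structure of the problem makes the realisations conservative is recorded in the problem
for fields of characteristic zero (Beilinson). Here there is no condition on the field, only one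
prime `ℓ` is used, and the converse holds.

Proof. Let `t` be non-degenerate and compatible with the tensor product. First, the unit `1` is in the
heart: if `C → 1 → E` is the truncation triangle with `C ∈ T^{≤-1}`, then `M ⊗ C = 0` for all `M` in
the heart, so `B ⊗ C = 0` for all bounded `B`, so `C ⊗ C ∈ T^{≤-n}` for all `n`, `C ⊗ C = 0`, and `C`
is a direct summand of `C ⊗ C' ⊗ C` (`C'` the dual). Let `M` be in the heart with `R(M) = 0`, and
let `U → 1 → V` be the triangle where `V` is the cokernel of the evaluation `M' ⊗ M → 1` in the heart.
The composition `U → U ⊗ V → V` is zero, the first map is an epimorphism and the second one a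
monomorphism in the heart, so `U ⊗ V = 0`. By duality `U ⊗ V' = 0`, and so `Hom(V, U[1]) = 0` and
the triangle splits. As `1` has no non-trivial idempotents, `U = 0` or `V = 0`. If `V = 0`, then
`R(1) = 0`, a contradiction. So the evaluation is zero, and so is `M`. Non-degeneracy gives the
conservativity on `T`.
-/

open CategoryTheory Limits MonoidalCategory Triangulated Pretriangulated

set_option autoImplicit false

universe v₁ v₂ u₁ u₂

namespace Pool.Agent.Results.MP_6d0ce9_ag.Conservativity

open Pool.Agent.TH133.TT

/-- Let `t` be a t-structure on `T` such that `R` is t-exact. Then `t` is non-degenerate and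
compatible with the tensor product if and only if `R` is conservative; and in this case `t` is the
inverse image of the t-structure `s` of `D`. -/
theorem result {T : Type u₁} [Category.{v₁} T] [Preadditive T] [HasZeroObject T] [HasShift T ℤ]
    [∀ n : ℤ, (shiftFunctor T n).Additive] [Pretriangulated T] [MonoidalCategory T]
    [BraidedCategory T] [∀ X : T, (tensorLeft X).CommShift ℤ]
    [∀ X : T, (tensorLeft X).IsTriangulated] [∀ X : T, HasRightDual X]
    {D : Type u₂} [Category.{v₂} D] [Preadditive D] [HasZeroObject D] [HasShift D ℤ]
    [∀ n : ℤ, (shiftFunctor D n).Additive] [Pretriangulated D] [MonoidalCategory D]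
    [MonoidalPreadditive D] (R : T ⥤ D) [R.CommShift ℤ] [R.IsTriangulated] [R.Monoidal]
    (s : TStructure D) (hs : IsNondegenerate s) (hs' : IsTensorCompatible s)
    (hD : ¬ IsZero (𝟙_ D)) (hconn : ∀ e : 𝟙_ T ⟶ 𝟙_ T, e ≫ e = e → e = 0 ∨ e = 𝟙 (𝟙_ T))
    (t : TStructure T) (ht : IsTExact R t s) :
    ((IsNondegenerate t ∧ IsTensorCompatible t) ↔ ∀ M : T, IsZero (R.obj M) → IsZero M) ∧
    (IsNondegenerate t → IsTensorCompatible t → ∀ (M : T) (n : ℤ),
      (t.le n M ↔ s.le n (R.obj M)) ∧ (t.ge n M ↔ s.ge n (R.obj M))) := by
  refine ⟨⟨fun h => conservative_of h.1 h.2 ht hconn hD, of_conservative hs hs' ht⟩,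
    fun h1 h2 M n => ?_⟩
  have hc := conservative_of h1 h2 ht hconn hD
  exact ⟨le_iff_of_conservative ht hc M n, ge_iff_of_conservative ht hc M n⟩

end Pool.Agent.Results.MP_6d0ce9_ag.Conservativity
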