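import Pool.Agent.TH133.TT.Main
import Pool.Agent.TH26.MT.Exch

/-!
# The motivic t-structure: a criterion by dévissage

`T` is a triangulated category with a tensor product, all of whose objects have duals and whose unit
has no idempotent endomorphisms besides `0` and `1`; `R i : T ⥤ D i` is a non-empty family of
triangulated tensor functors to categories with non-degenerate t-structures compatible with the
tensor product; every object of `T` has a bounded set of degrees, uniformly in `i`. For every field
`k` these hypotheses hold for `T = DM_c(k)` and the `ℓ`-adic realisations, `ℓ` running through all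
prime numbers different from the characteristic. Let `G` be a class of objects which generates `T`
under shifts and extensions (for `DM_c(k)`: the Chow motives; no direct summands are needed, by the
Chow weight structure).

Theorem. The following are equivalent.

1. `T` has a t-structure that is non-degenerate, compatible with the tensor product and such that
   all `R i` are t-exact.
2. The family `R` is conservative, and every object of `T` which is not concentrated in one degree is
   an extension of two non-zero objects which are separated by their degrees.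
3. The family `R` is conservative, every object of `G` is an iterated extension (in any order) of
   objects concentrated in one degree, and the order of two successive concentrated pieces can be
   exchanged, if it is the wrong one.

No condition on morphisms (such as the vanishing of negative extensions), on the tensor product or on
the existence of a truncation at a given place is contained in 2 and 3.
-/

open CategoryTheory Limits MonoidalCategory Triangulated Pretriangulated

set_option autoImplicit false

universe v₁ v₂ u₁ u₂ w

namespace Pool.Agent.Results.MP_6d0ce9_ag.DevissageCriterion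

open Pool.Agent.TH133.TT Pool.Agent.TH26.MT

/-- Three equivalent conditions: the existence of the motivic t-structure; conservativity and the
existence of one cut in every object that is not concentrated in one degree; conservativity, dévissage
of the generators and exchange of two successive pieces. -/
theorem result {T : Type u₁} [Category.{v₁} T] [Preadditive T] [HasZeroObject T] [HasShift T ℤ]
    [∀ n : ℤ, (shiftFunctor T n).Additive] [Pretriangulated T] [IsTriangulated T]
    [MonoidalCategory T] [BraidedCategory T] [∀ X : T, (tensorLeft X).CommShift ℤ]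
    [∀ X : T, (tensorLeft X).IsTriangulated] [∀ X : T, HasRightDual X]
    {ι : Type w} [Nonempty ι] {D : ι → Type u₂} [∀ i, Category.{v₂} (D i)]
    [∀ i, Preadditive (D i)] [∀ i, HasZeroObject (D i)] [∀ i, HasShift (D i) ℤ]
    [∀ i, ∀ n : ℤ, (shiftFunctor (D i) n).Additive] [∀ i, Pretriangulated (D i)]
    [∀ i, MonoidalCategory (D i)] [∀ i, MonoidalPreadditive (D i)]
    (R : ∀ i, T ⥤ D i) [∀ i, (R i).CommShift ℤ] [∀ i, (R i).IsTriangulated]
    [∀ i, (R i).Monoidal] (s : ∀ i, TStructure (D i)) (hs : ∀ i, IsNondegenerate (s i))
    (hs' : ∀ i, IsTensorCompatible (s i)) (hD : ∀ i, ¬ IsZero (𝟙_ (D i)))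
    (hconn : ∀ e : 𝟙_ T ⟶ 𝟙_ T, e ≫ e = e → e = 0 ∨ e = 𝟙 (𝟙_ T))
    (hbdd : ∀ X : T, ∃ a b : ℤ, Ge R s a X ∧ Le R s b X)
    (G : ObjectProperty T) (hG : ∀ X : T, IterExt (Shifts G) X) :
    [∃ t : TStructure T, IsNondegenerate t ∧ IsTensorCompatible t ∧
        ∀ i, IsTExact (R i) t (s i),
      JointlyConservative R ∧ ∀ X : T, (∃ n : ℤ, Conc R s n X) ∨ Splits R s X,
      JointlyConservative R ∧ (∀ X : T, G X → IterExt (fun Y => ∃ n : ℤ, Conc R s n Y) X) ∧
        Exchange R s].TFAE := by
  have h12 : (∃ t : TStructure T, IsNondegenerate t ∧ IsTensorCompatible t ∧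
      ∀ i, IsTExact (R i) t (s i)) →
      JointlyConservative R ∧ ∀ (X : T) (m : ℤ), CutAt R s m X := by
    rintro ⟨t, h1, h2, h3⟩
    refine ⟨fun X hX => ?_, fun X m => ?_⟩
    · obtain ⟨i⟩ := ‹Nonempty ι›
      exact conservative_of h1 h2 (h3 i) hconn (hD i) X (hX i)
    · obtain ⟨A, B, hA, hB, f, g, w, hT⟩ := t.exists_triangle X m (m + 1) rfl
      exact ⟨A, B, f, g, w, hT, fun i => (h3 i).le _ _ hA, fun i => (h3 i).ge _ _ hB⟩
  tfae_have 1 → 2 := fun h => ⟨(h12 h).1, splits_of_cut hbdd (h12 h).2⟩
  tfae_have 1 → 3 := fun h =>
    ⟨(h12 h).1, fun X _ => iterExt_of_cut hbdd (h12 h).2 X, exchange_of_cut (h12 h).1 (h12 h).2⟩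
  have h21 : JointlyConservative R → (∀ X : T, CutAt R s 0 X) →
      ∃ t : TStructure T, IsNondegenerate t ∧ IsTensorCompatible t ∧
        ∀ i, IsTExact (R i) t (s i) := by
    intro hc hcut
    refine ⟨mkT R s hc hcut, ⟨fun X hX => hc X fun i => (hs i).le _ fun n => hX n i,
      fun X hX => hc X fun i => (hs i).ge _ fun n => hX n i⟩,
      ⟨fun X Y m n hX hY i => ?_, fun X Y m n hX hY i => ?_⟩,
      fun i => ⟨fun X n hX => hX i, fun X n hX => hX i⟩⟩
    · exact le_of_iso (s i) (Functor.Monoidal.μIso (R i) X Y) ((hs' i).le _ _ m n (hX i) (hY i))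
    · exact ge_of_iso (s i) (Functor.Monoidal.μIso (R i) X Y) ((hs' i).ge _ _ m n (hX i) (hY i))
  tfae_have 2 → 1 := fun h => h21 h.1 fun X => cut_of_splits h.1 hbdd h.2 X 0
  tfae_have 3 → 1 := by
    rintro ⟨hc, hg, hx⟩
    refine h21 hc fun X => cut_of_exchange hx 0 (IterExt.bind ?_ (hG X))
    rintro Y ⟨Z, n, hZ, ⟨e⟩⟩
    exact ((hg Z hZ).shift (fun X n ⟨a, ha⟩ => ⟨a - n, ha.shift (by omega)⟩) n).iso e.symm
  tfae_finish

end Pool.Agent.Results.MP_6d0ce9_ag.DevissageCriterion
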