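import Pool.Agent.TH133.TT.Main
import Pool.Agent.TH26.MT.Spec

/-!
# The motivic t-structure: one field of every characteristic suffices

`T'` stands for `DM_c(K)`, where `K` is an algebraically closed field of infinite transcendence degree
over its prime field (for example the field of complex numbers), `T` for `DM_c(k)`, `k` an arbitrary
field of the same characteristic, and `S j` for `DM_c(k_j)`, where `k_j` runs through the finitely
generated subfields of `k`; `F j : S j ⥤ T'` and `G j : S j ⥤ T` are the base change functors for an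
embedding of `k_j` into `K` and for the inclusion of `k_j` into `k`. The indices `i` are the prime
numbers different from the characteristic.

Facts about these categories that are used as hypotheses:
* base change does not change the degrees of the realisations (`hdeg`);
* every object of `DM_c(k)` comes from some `DM_c(k_j)` (`hG`, continuity);
* `F j` is faithful (`hF`), and triangles `A → F X → B` specialise (`hsp`): such a triangle extends to
  a triangle over an integral variety `U` over `k_j`, small enough for all realisations to be lisse;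
  it can be restricted to a closed point `u` of `U` and pushed forward to `k_j`, and `X` is a direct
  summand of the push-forward of its pull-back to the residue field of `u`. The same argument for a
  morphism which vanishes over `K` shows that `F j` is faithful.

Theorem. If `T'` has a t-structure that is non-degenerate, compatible with the tensor product and for
which the realisations are t-exact, then so has `T`.
-/

open CategoryTheory Limits MonoidalCategory Triangulated Pretriangulated

set_option autoImplicit false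

universe v₁ v₂ u₁ u₂ w

namespace Pool.Agent.Results.MP_6d0ce9_ag.OneFieldSuffices

open Pool.Agent.TH133.TT Pool.Agent.TH26.MT

/-- The motivic t-structure over `K` gives the motivic t-structure over `k`. -/
theorem result
    -- motives over `K`
    {T' : Type u₁} [Category.{v₁} T'] [Preadditive T'] [HasZeroObject T'] [HasShift T' ℤ]
    [∀ n : ℤ, (shiftFunctor T' n).Additive] [Pretriangulated T']
    [MonoidalCategory T'] [BraidedCategory T'] [∀ X : T', (tensorLeft X).CommShift ℤ]
    [∀ X : T', (tensorLeft X).IsTriangulated] [∀ X : T', HasRightDual X]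
    (hconn : ∀ e : 𝟙_ T' ⟶ 𝟙_ T', e ≫ e = e → e = 0 ∨ e = 𝟙 (𝟙_ T'))
    -- realisations of motives over `K`
    {ι : Type w} {D' : ι → Type u₂} [∀ i, Category.{v₂} (D' i)]
    [∀ i, Preadditive (D' i)] [∀ i, HasZeroObject (D' i)] [∀ i, HasShift (D' i) ℤ]
    [∀ i, ∀ n : ℤ, (shiftFunctor (D' i) n).Additive] [∀ i, Pretriangulated (D' i)]
    [∀ i, MonoidalCategory (D' i)] [∀ i, MonoidalPreadditive (D' i)]
    (R' : ∀ i, T' ⥤ D' i) [∀ i, (R' i).CommShift ℤ] [∀ i, (R' i).IsTriangulated]
    [∀ i, (R' i).Monoidal] (s' : ∀ i, TStructure (D' i)) (hs' : ∀ i, IsNondegenerate (s' i))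
    (hD' : ∀ i, ¬ IsZero (𝟙_ (D' i)))
    -- motives over `k` and their realisations
    {T : Type u₁} [Category.{v₁} T] [Preadditive T] [HasZeroObject T] [HasShift T ℤ]
    [∀ n : ℤ, (shiftFunctor T n).Additive] [Pretriangulated T] [IsTriangulated T]
    [MonoidalCategory T] {D : ι → Type u₂} [∀ i, Category.{v₂} (D i)]
    [∀ i, Preadditive (D i)] [∀ i, HasZeroObject (D i)] [∀ i, HasShift (D i) ℤ]
    [∀ i, ∀ n : ℤ, (shiftFunctor (D i) n).Additive] [∀ i, Pretriangulated (D i)]
    [∀ i, MonoidalCategory (D i)] (R : ∀ i, T ⥤ D i) [∀ i, (R i).CommShift ℤ]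
    [∀ i, (R i).IsTriangulated] [∀ i, (R i).Monoidal] (s : ∀ i, TStructure (D i))
    (hs : ∀ i, IsNondegenerate (s i)) (hst : ∀ i, IsTensorCompatible (s i))
    -- motives over the finitely generated subfields of `k` and base change
    {J : Type w} {S : J → Type u₁} [∀ j, Category.{v₁} (S j)] [∀ j, Preadditive (S j)]
    [∀ j, HasZeroObject (S j)] [∀ j, HasShift (S j) ℤ]
    [∀ j, ∀ n : ℤ, (shiftFunctor (S j) n).Additive] [∀ j, Pretriangulated (S j)]
    [∀ j, IsIdempotentComplete (S j)]
    (F : ∀ j, S j ⥤ T') [∀ j, (F j).CommShift ℤ] [∀ j, (F j).IsTriangulated]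
    (G : ∀ j, S j ⥤ T) [∀ j, (G j).CommShift ℤ] [∀ j, (G j).IsTriangulated]
    (hdeg : ∀ (j : J) (X : S j) (n : ℤ),
      (Le R s n ((G j).obj X) ↔ Le R' s' n ((F j).obj X)) ∧
        (Ge R s n ((G j).obj X) ↔ Ge R' s' n ((F j).obj X)))
    (hG : ∀ X : T, ∃ (j : J) (Y : S j), Nonempty (X ≅ (G j).obj Y))
    (hF : ∀ j, (F j).Faithful) (hsp : ∀ j, Specialises (F j) R' s')
    -- the motivic t-structure over `K`
    (h : ∃ t' : TStructure T', IsNondegenerate t' ∧ IsTensorCompatible t' ∧
      ∀ i, IsTExact (R' i) t' (s' i)) (hι : Nonempty ι) :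
    ∃ t : TStructure T, IsNondegenerate t ∧ IsTensorCompatible t ∧
      ∀ i, IsTExact (R i) t (s i) := by
  obtain ⟨t', h1, h2, h3⟩ := h
  obtain ⟨i₀⟩ := hι
  have hc' : ∀ i (X : T'), IsZero ((R' i).obj X) → IsZero X := fun i X =>
    conservative_of h1 h2 (h3 i) hconn (hD' i) X
  have hle : ∀ (n : ℤ) (X : T'), t'.le n X ↔ Le R' s' n X := fun n X =>
    ⟨fun hX i => (h3 i).le _ _ hX, fun hX =>
      (le_iff_of_conservative (h3 i₀) (hc' i₀) X n).2 (hX i₀)⟩
  have hge : ∀ (n : ℤ) (X : T'), t'.ge n X ↔ Ge R' s' n X := fun n X =>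
    ⟨fun hX i => (h3 i).ge _ _ hX, fun hX =>
      (ge_iff_of_conservative (h3 i₀) (hc' i₀) X n).2 (hX i₀)⟩
  have hc : JointlyConservative R := by
    intro X hX
    obtain ⟨j, Y, ⟨e⟩⟩ := hG X
    have hY : ∀ n : ℤ, Le R' s' n ((F j).obj Y) := fun n =>
      (hdeg j Y n).1.1 (Le.iso (fun i => le_isZero (s i) (hX i) n) e)
    have hFY : IsZero ((F j).obj Y) := hc' i₀ _ ((hs' i₀).le _ fun n => hY n i₀)
    have := hF j
    exact ((G j).map_isZero (isZero_of_faithful hFY)).of_iso e
  have hcut : ∀ X : T, CutAt R s 0 X := by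
    intro X
    obtain ⟨j, Y, ⟨e⟩⟩ := hG X
    have := hF j
    obtain ⟨A, B, f, g, k, hT, hA, hB⟩ := cut_descends (hsp j) t' hle hge Y
    have hT' := (G j).map_distinguished _ hT
    have hcY : CutAt R s 0 ((G j).obj Y) :=
      ⟨_, _, _, _, _, hT', (hdeg j A 0).1.2 hA, (hdeg j B 1).2.2 hB⟩
    exact (ObjectProperty.extensionProduct (Le R s 0) (Ge R s (0 + 1))).prop_of_iso e.symm hcY
  refine ⟨mkT R s hc hcut, ⟨fun X hX => hc X fun i => (hs i).le _ fun n => hX n i,
    fun X hX => hc X fun i => (hs i).ge _ fun n => hX n i⟩,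
    ⟨fun X Y m n hX hY i => ?_, fun X Y m n hX hY i => ?_⟩,
    fun i => ⟨fun X n hX => hX i, fun X n hX => hX i⟩⟩
  · exact le_of_iso (s i) (Functor.Monoidal.μIso (R i) X Y) ((hst i).le _ _ m n (hX i) (hY i))
  · exact ge_of_iso (s i) (Functor.Monoidal.μIso (R i) X Y) ((hst i).ge _ _ m n (hX i) (hY i))

end Pool.Agent.Results.MP_6d0ce9_ag.OneFieldSuffices
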