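import Pool.Agent.TH133.TT.Fields

/-!
# Motivic t-structures: only the characteristic and the transcendence degree matter

The structure `FieldMotives p Λ` lists formal properties of the categories `DM_c(k)` and of their
`ℓ`-adic realisations, for all fields `k` of characteristic `p` and all primes `ℓ ≠ p` (the set
`Λ`). For `DM_c(k)` they hold for the following reasons.

* `Realised`: all objects have duals (alterations), idempotents split, `End(1) = ℚ`; the standard
  t-structure on `D^b_c(Spec k, ℚ_ℓ)` is non-degenerate and compatible with the tensor product.
* `BaseChange`: the realisation of the base change of a motive is the restriction of its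
  realisation, so it lives in the same degrees.
* `algebraic`: let `K/k` be algebraic. A morphism of `DM_c(K)` comes from a morphism `f` over a
  finite extension `L/k` in `K`, and `f_K` is a direct summand of `(π_* f)_K`, where
  `π : Spec L → Spec k`.
* `finitelyGenerated`: `DM_c(K)` is the filtered colimit of the `DM_c(k)` over the finitely
  generated subfields `k` of `K`.
* `specialises`: let `k ⊆ K` be arbitrary, `U → A_K → V` a distinguished triangle in `DM_c(K)`
  with `A` in `DM_c(k)`. It comes from a triangle `U_S → A_S → V_S` in `DM_c(S)`, for an integral
  `k`-algebra `S ⊆ K` of finite type over which `U_S`, `V_S` have duals, so that the cohomology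
  sheaves of their realisations are lisse for all `ℓ`. Restrict to a closed point `u` of `Spec S`,
  with residue field `L`, and apply `π_*`. This gives a triangle `π_* U_u → π_* π^* A → π_* V_u`,
  the realisations live in the same degrees, and `A` is a direct summand of `π_* π^* A` since
  coefficients are rational.
* `faithful`: if a morphism of `DM_c(k)` vanishes over `K`, it vanishes over some `S` as before, hence
  over a finite extension of `k`, hence over `k` by the same argument.

Theorem. Let `k`, `K` be fields of characteristic `p` such that the transcendence degree of `K`
over the prime field is infinite or at least that of `k`. If a t-structure as in the problem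
exists on `DM_c(K)`, it exists on `DM_c(k)`.

So for given `k` the answer depends only on the characteristic and on the transcendence degree
(`0, 1, 2, …, ∞`) of `k`; it does not change under algebraic extensions; if it is positive for one
field of infinite transcendence degree, such as the complex numbers, it is positive for all fields
of the same characteristic.

Proof. If the t-structure `t` exists on `T`, then the realisations are conservative on `T`, and
`t` is the inverse image of the standard t-structure for each `ℓ` (see `Conservativity`). (1) Let
`t'` be such a t-structure over `K`, and let `k ⊆ K`. Orthogonality for the inverse image of `t'`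
under base change follows from faithfulness. For `A` over `k`, specialise the truncation triangle
of `A_K`: we get a triangle `U₀ → X → V₀` over `k`, where `U₀` lies in degrees `≤ 0` and `V₀`
in degrees `≥ 1` and `A` is a retract of `X`. The corresponding idempotent of `X` extends
uniquely to the triangle; split it. (2) If morphisms over `K` descend to fields `k_i` for which the
t-structures exist, then the inverse image of the standard t-structure on `DM_c(K)` does not depend
on `ℓ`; orthogonality descends, and truncation triangles of retracts are obtained as before. (3) A
finitely generated subfield of `k` embeds into an algebraic closure of `K`.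
-/

open CategoryTheory

set_option autoImplicit false

universe u v₁ v₂ u₁ u₂ w

namespace Pool.Agent.Results.MP_6d0ce9_ag.TranscendenceDegree

open Pool.Agent.TH133.TT

/-- Let `k`, `K` be fields of characteristic `p` with `min(ℵ₀, trdeg k) ≤ trdeg K`. If the
motives over `K` have a motivic t-structure, then so have the motives over `k`. -/
theorem result {p : ℕ} {Λ : Type w} [Nonempty Λ] (M : FieldMotives.{u, v₁, v₂, u₁, u₂} p Λ)
    (k K : Type u) [Field k] [CharP k p] [Algebra (ZMod p) k] [Field K] [CharP K p]
    [Algebra (ZMod p) K]
    (h : min Cardinal.aleph0 (Algebra.trdeg (ZMod p) k) ≤ Algebra.trdeg (ZMod p) K)
    (hK : (M.obj K).HasMotivicTStructure) : (M.obj k).HasMotivicTStructure :=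
  hasMotivicTStructure_of_trdeg M k K h hK

end Pool.Agent.Results.MP_6d0ce9_ag.TranscendenceDegree
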